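import Mathlib

/-!
Linear algebra of alternating forms: forms with a small radical, reduction.
-/

set_option autoImplicit false

open Matrix

namespace Pool.Agent.TH327.PT

section det

variable {V ι : Type*} [AddCommGroup V] [Module ℝ V] [Fintype ι] [DecidableEq ι]

/-- nondegeneracy by the Gram determinant -/
theorem det_ne_zero_iff (b : Module.Basis ι ℝ V) (B : LinearMap.BilinForm ℝ V) :
    (Matrix.of fun i j => B (b i) (b j)).det ≠ 0 ↔ ∀ v, (∀ v', B v v' = 0) → v = 0 := by
  have key : ∀ (c : ι → ℝ) (j : ι), (c ᵥ* (Matrix.of fun i j => B (b i) (b j))) j =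
      B (∑ i, c i • b i) (b j) := by
    intro c j
    simp [Matrix.vecMul, dotProduct, map_sum, LinearMap.sum_apply]
  constructor
  · intro h v hv
    have h1 : (fun i => b.repr v i) ᵥ* (Matrix.of fun i j => B (b i) (b j)) = 0 := by
      ext j
      rw [key, b.sum_repr, hv]
      rfl
    have h2 := Matrix.eq_zero_of_vecMul_eq_zero h h1
    rw [← b.sum_repr v]
    refine Finset.sum_eq_zero fun i _ => ?_
    have := congrFun h2 i
    simp only [Pi.zero_apply] at this
    rw [this, zero_smul]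
  · intro h hdet
    obtain ⟨c, hc, hc0⟩ := Matrix.exists_vecMul_eq_zero_iff.2 hdet
    apply hc
    have h1 : (∑ i, c i • b i) = 0 := by
      apply h
      intro v'
      have h2 : B (∑ i, c i • b i) = 0 := by
        refine b.ext fun j => ?_
        rw [← key, hc0]
        rfl
      rw [h2]
      rfl
    have h3 : ∀ i, c i = 0 := by
      intro i
      have := congrArg (fun v => b.repr v i) h1
      simpa [Finsupp.single_apply] using this
    exact funext h3

end det

/-- a nondegenerate alternating form lives in even dimension -/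
theorem even_of_nondeg {V : Type*} [AddCommGroup V] [Module ℝ V] [FiniteDimensional ℝ V]
    (B : LinearMap.BilinForm ℝ V) (h1 : ∀ v, B v v = 0) (h2 : ∀ v, (∀ v', B v v' = 0) → v = 0) :
    Even (Module.finrank ℝ V) := by
  by_contra hodd
  rw [Nat.not_even_iff_odd] at hodd
  let b := Module.finBasis ℝ V
  have h3 := (det_ne_zero_iff b B).2 h2
  have hskew : ∀ v w, B v w = - B w v := by
    intro v w
    have := h1 (v + w)
    simp only [map_add, LinearMap.add_apply, h1] at this
    linarith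
  have h4 : (Matrix.of fun i j => B (b i) (b j))ᵀ = - (Matrix.of fun i j => B (b i) (b j)) := by
    ext i j
    simp only [Matrix.transpose_apply, Matrix.of_apply, Matrix.neg_apply]
    exact hskew _ _
  have h5 := Matrix.det_transpose (Matrix.of fun i j => B (b i) (b j))
  rw [h4, Matrix.det_neg, Fintype.card_fin, hodd.neg_one_pow] at h5
  apply h3
  linarith

/-- alternating forms whose radical has dimension at most one exist on every space -/
theorem exists_alt (L : Type*) [AddCommGroup L] [Module ℝ L] [FiniteDimensional ℝ L] :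
    ∃ (K : LinearMap.BilinForm ℝ L) (n : L), (∀ w, K w w = 0) ∧ (∀ w, K n w = 0) ∧
      ∀ w, (∀ w', K w w' = 0) → ∃ c : ℝ, w = c • n := by
  obtain ⟨r, s, hs, hd⟩ : ∃ r s : ℕ, s ≤ 1 ∧ Module.finrank ℝ L = r + (r + s) :=
    ⟨Module.finrank ℝ L / 2, Module.finrank ℝ L % 2, by omega, by omega⟩
  have e : L ≃ₗ[ℝ] (Fin r → ℝ) × (Fin r → ℝ) × (Fin s → ℝ) :=
    LinearEquiv.ofFinrankEq _ _ (by simp [hd])
  let K : LinearMap.BilinForm ℝ L := LinearMap.mk₂ ℝ
    (fun w w' => (e w).1 ⬝ᵥ (e w').2.1 - (e w).2.1 ⬝ᵥ (e w').1)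
    (fun a b c => by simp [add_dotProduct]; ring)
    (fun a b c => by simp [smul_dotProduct]; ring)
    (fun a b c => by simp [dotProduct_add]; ring)
    (fun a b c => by simp [dotProduct_smul]; ring)
  have hK : ∀ w w', K w w' = (e w).1 ⬝ᵥ (e w').2.1 - (e w).2.1 ⬝ᵥ (e w').1 := fun _ _ => rfl
  refine ⟨K, e.symm (0, 0, fun _ => 1), fun w => ?_, fun w => ?_, fun w hw => ?_⟩
  · rw [hK, dotProduct_comm]
    ring
  · rw [hK]
    simp
  · have h1 : (e w).1 = 0 := by
      apply dotProduct_eq_zero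
      intro a
      have := hw (e.symm (0, a, 0))
      rw [hK] at this
      simpa using this
    have h2 : (e w).2.1 = 0 := by
      apply dotProduct_eq_zero
      intro a
      have := hw (e.symm (a, 0, 0))
      rw [hK] at this
      simpa using this
    refine ⟨∑ i, (e w).2.2 i, ?_⟩
    apply e.injective
    rw [map_smul, e.apply_symm_apply]
    refine Prod.ext (by simp [h1]) (Prod.ext (by simp [h2]) ?_)
    ext i
    have hs1 : Subsingleton (Fin s) := Fin.subsingleton_iff_le_one.2 hs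
    simp only [Prod.smul_snd, Pi.smul_apply, smul_eq_mul, mul_one]
    rw [Fintype.sum_subsingleton _ i]

/-- making the radical of an alternating form small -/
theorem exists_K {F : Type*} [AddCommGroup F] [Module ℝ F] [FiniteDimensional ℝ F]
    (τ : LinearMap.BilinForm ℝ F) (hτ : ∀ w, τ w w = 0) :
    ∃ (K : LinearMap.BilinForm ℝ F) (n : F) (ν : Module.Dual ℝ F), (∀ w, K w w = 0) ∧
      (ν n = 1 ∨ (n = 0 ∧ ν = 0)) ∧ ∀ ε : ℝ, ε ≠ 0 → (∀ w, (τ + ε • K) n w = 0) ∧
        ∀ w, (∀ w', (τ + ε • K) w w' = 0) → ∃ c : ℝ, w = c • n := by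
  have hskew : ∀ v w, τ v w = - τ w v := by
    intro v w
    have := hτ (v + w)
    simp only [map_add, LinearMap.add_apply, hτ] at this
    linarith
  let L : Submodule ℝ F := LinearMap.ker τ
  obtain ⟨π, hπ⟩ := LinearMap.exists_leftInverse_of_injective L.subtype L.ker_subtype
  have hπ' : ∀ l : L, π l = l := fun l => LinearMap.congr_fun hπ l
  have hL : ∀ l : L, ∀ w, τ l w = 0 := by
    intro l w
    have := l.2
    rw [LinearMap.mem_ker] at this
    rw [this]
    rfl
  obtain ⟨K, n, hK1, hK2, hK3⟩ := exists_alt L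
  obtain ⟨ν, hν⟩ : ∃ ν : Module.Dual ℝ F, ν (n : F) = 1 ∨ ((n : F) = 0 ∧ ν = 0) := by
    by_cases hn : (n : F) = 0
    · exact ⟨0, Or.inr ⟨hn, rfl⟩⟩
    · have h1 : ¬ ∀ f : Module.Dual ℝ F, f (n : F) = 0 := fun h =>
        hn ((Module.forall_dual_apply_eq_zero_iff ℝ (n : F)).1 h)
      push Not at h1
      obtain ⟨f, hf⟩ := h1
      exact ⟨(f n)⁻¹ • f, Or.inl (by simp [hf])⟩
  refine ⟨K.compl₁₂ π π, n, ν, fun w => hK1 _, hν, fun ε hε => ⟨fun w => ?_, fun w hw => ?_⟩⟩
  · show τ n w + ε * K (π n) (π w) = 0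
    rw [hL, hπ', hK2]
    ring
  · have hw' : ∀ w', τ w w' + ε * K (π w) (π w') = 0 := hw
    obtain ⟨c, hc⟩ := hK3 (π w) fun l => by
      have h1 := hw' l
      rw [hskew, hL, hπ'] at h1
      have h2 : ε * K (π w) l = 0 := by linarith
      exact (mul_eq_zero.1 h2).resolve_left hε
    have h3 : w ∈ L := by
      rw [LinearMap.mem_ker]
      ext w'
      have h1 := hw' w'
      rw [hc, map_smul, LinearMap.smul_apply, hK2] at h1
      simpa using h1
    refine ⟨c, ?_⟩
    have h4 := hπ' ⟨w, h3⟩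
    have h5 : w = ((⟨w, h3⟩ : L) : F) := rfl
    rw [h5, ← h4]
    have h6 : π ((⟨w, h3⟩ : L) : F) = c • n := hc
    rw [h6]
    rfl

/-- solving `τ g = φ` up to the radical -/
theorem exists_g {F : Type*} [AddCommGroup F] [Module ℝ F] [FiniteDimensional ℝ F]
    (τ : LinearMap.BilinForm ℝ F) (hτ : ∀ w, τ w w = 0) {n : F} {ν : Module.Dual ℝ F}
    (hν : ν n = 1 ∨ (n = 0 ∧ ν = 0)) (hn : ∀ w, τ n w = 0)
    (hr : ∀ w, (∀ w', τ w w' = 0) → ∃ c : ℝ, w = c • n) (φ : Module.Dual ℝ F) :
    ∃ g : F, ∀ w, τ g w = φ w - φ n * ν w := by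
  have hskew : ∀ v w, τ v w = - τ w v := by
    intro v w
    have := hτ (v + w)
    simp only [map_add, LinearMap.add_apply, hτ] at this
    linarith
  let T : F →ₗ[ℝ] Module.Dual ℝ F := τ + ν.smulRight ν
  have hT : ∀ g w, T g w = τ g w + ν g * ν w := fun _ _ => rfl
  have hinj : Function.Injective T := by
    rw [injective_iff_map_eq_zero]
    intro g hg
    have hg' : ∀ w, τ g w + ν g * ν w = 0 := fun w => by rw [← hT, hg]; rfl
    rcases hν with h1 | ⟨h1, h2⟩
    · have h3 := hg' n
      rw [hskew, hn, h1] at h3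
      have h4 : ν g = 0 := by linarith
      obtain ⟨c, hc⟩ := hr g fun w => by
        have := hg' w
        rw [h4] at this
        linarith
      rw [hc, map_smul, h1, smul_eq_mul, mul_one] at h4
      rw [hc, h4, zero_smul]
    · obtain ⟨c, hc⟩ := hr g fun w => by
        have := hg' w
        rw [h2] at this
        simpa using this
      rw [hc, h1, smul_zero]
  have hsurj : Function.Surjective T :=
    (LinearMap.injective_iff_surjective_of_finrank_eq_finrank
      (Subspace.dual_finrank_eq (K := ℝ) (V := F)).symm).1 hinj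
  obtain ⟨g, hg⟩ := hsurj φ
  have hg' : ∀ w, τ g w + ν g * ν w = φ w := fun w => by rw [← hT, hg]
  refine ⟨g, fun w => ?_⟩
  rcases hν with h1 | ⟨h1, h2⟩
  · have h3 := hg' n
    rw [hskew, hn, h1] at h3
    have h4 := hg' w
    have h5 : ν g = φ n := by linarith
    rw [h5] at h4
    linarith
  · have h4 := hg' w
    rw [h2] at h4 ⊢
    simpa using h4

section point

variable {E F : Type*} [AddCommGroup E] [Module ℝ E] [AddCommGroup F] [Module ℝ F] {k : ℕ}

/-- the form `σ + τ + ∑ α i ∧ β i` -/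
def om (σ : LinearMap.BilinForm ℝ E) (τ : LinearMap.BilinForm ℝ F) (α : Fin k → Module.Dual ℝ E)
    (β : Fin k → Module.Dual ℝ F) (u : E) (w : F) (u' : E) (w' : F) : ℝ :=
  σ u u' + τ w w' + ∑ i, (α i u * β i w' - α i u' * β i w)

theorem om_eq (σ : LinearMap.BilinForm ℝ E) (τ : LinearMap.BilinForm ℝ F)
    (α : Fin k → Module.Dual ℝ E) (β : Fin k → Module.Dual ℝ F) (u : E) (w : F) (u' : E) (w' : F) :
    om σ τ α β u w u' w' = σ u u' + τ w w' + (∑ i, α i u * β i w') - ∑ i, α i u' * β i w := by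
  unfold om
  rw [Finset.sum_sub_distrib]
  ring

/-- the vector `∑ α i u • g i` -/
def AA (α : Fin k → Module.Dual ℝ E) (g : Fin k → F) : E →ₗ[ℝ] F := ∑ i, (α i).smulRight (g i)

theorem AA_apply (α : Fin k → Module.Dual ℝ E) (g : Fin k → F) (u : E) :
    AA α g u = ∑ i, α i u • g i := by
  simp [AA, LinearMap.sum_apply]

/-- the reduced form on `E` -/
def red (σ : LinearMap.BilinForm ℝ E) (τ : LinearMap.BilinForm ℝ F) (α : Fin k → Module.Dual ℝ E)
    (g : Fin k → F) : LinearMap.BilinForm ℝ E := σ - τ.compl₁₂ (AA α g) (AA α g)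

theorem red_apply (σ : LinearMap.BilinForm ℝ E) (τ : LinearMap.BilinForm ℝ F)
    (α : Fin k → Module.Dual ℝ E) (g : Fin k → F) (u u' : E) :
    red σ τ α g u u' = σ u u' - τ (AA α g u) (AA α g u') := rfl

variable {σ : LinearMap.BilinForm ℝ E} {τ : LinearMap.BilinForm ℝ F}
  {α : Fin k → Module.Dual ℝ E} {β : Fin k → Module.Dual ℝ F} {n : F} {ν : Module.Dual ℝ F}
  {g : Fin k → F}

theorem M_eq (hg : ∀ i w, τ (g i) w = - β i w + β i n * ν w) (u : E) (w : F) :
    ∑ i, α i u * β i w = - τ (AA α g u) w + (∑ i, β i n * α i u) * ν w := by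
  rw [AA_apply, map_sum, LinearMap.sum_apply, ← Finset.sum_neg_distrib, Finset.sum_mul,
    ← Finset.sum_add_distrib]
  refine Finset.sum_congr rfl fun i _ => ?_
  rw [map_smul, LinearMap.smul_apply, hg i w, smul_eq_mul]
  ring

theorem point_even (hτ : ∀ w, τ w w = 0) (hν : ν = 0)
    (hg : ∀ i w, τ (g i) w = - β i w + β i n * ν w)
    (hO : ∀ u w, (∀ u' w', om σ τ α β u w u' w' = 0) → u = 0 ∧ w = 0) (u : E)
    (hu : ∀ u', red σ τ α g u u' = 0) : u = 0 := by
  have hskew : ∀ v w, τ v w = - τ w v := by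
    intro v w
    have := hτ (v + w)
    simp only [map_add, LinearMap.add_apply, hτ] at this
    linarith
  refine (hO u (AA α g u) fun u' w' => ?_).1
  have h1 := hu u'
  rw [red_apply] at h1
  rw [om_eq, M_eq hg, M_eq hg, hν]
  have h2 := hskew (AA α g u') (AA α g u)
  simp only [LinearMap.zero_apply, mul_zero, add_zero]
  linarith

theorem point_odd (hτ : ∀ w, τ w w = 0) (hn : ∀ w, τ n w = 0) (hν : ν n = 1)
    (hg : ∀ i w, τ (g i) w = - β i w + β i n * ν w)
    (hO : ∀ u w, (∀ u' w', om σ τ α β u w u' w' = 0) → u = 0 ∧ w = 0) :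
    (∃ u, ∑ i, β i n * α i u ≠ 0) ∧
    ∀ u, ∑ i, β i n * α i u = 0 → (∀ u', ∑ i, β i n * α i u' = 0 → red σ τ α g u u' = 0) →
      u = 0 := by
  have hskew : ∀ v w, τ v w = - τ w v := by
    intro v w
    have := hτ (v + w)
    simp only [map_add, LinearMap.add_apply, hτ] at this
    linarith
  have hex : ∃ u, ∑ i, β i n * α i u ≠ 0 := by
    by_contra hcon
    push Not at hcon
    have h1 := (hO 0 n fun u' w' => ?_).2
    · rw [h1, map_zero] at hν
      exact zero_ne_one hν
    · rw [om_eq, hn]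
      have h2 := hcon u'
      have h3 : ∑ i, α i u' * β i n = ∑ i, β i n * α i u' :=
        Finset.sum_congr rfl fun i _ => mul_comm _ _
      rw [h3, h2]
      simp
  refine ⟨hex, fun u hu hr => ?_⟩
  -- a vector with `α_n = 1`
  obtain ⟨u₀, hu₀⟩ := hex
  let an : Module.Dual ℝ E := ∑ i, β i n • α i
  have han : ∀ v, an v = ∑ i, β i n * α i v := by
    intro v
    simp [an, LinearMap.sum_apply]
  simp only [← han] at hu hr hu₀
  let u₁ : E := (an u₀)⁻¹ • u₀
  have hu₁ : an u₁ = 1 := by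
    simp only [u₁, map_smul, smul_eq_mul]
    exact inv_mul_cancel₀ hu₀
  have hrr : ∀ u', red σ τ α g u u' = an u' * red σ τ α g u u₁ := by
    intro u'
    have h1 := hr (u' - an u' • u₁) (by rw [map_sub, map_smul, hu₁]; simp)
    rw [map_sub, map_smul, smul_eq_mul] at h1
    linarith
  let c : ℝ := red σ τ α g u u₁ - ν (AA α g u)
  refine (hO u (AA α g u + c • n) fun u' w' => ?_).1
  rw [om_eq, M_eq hg, M_eq hg, ← han, ← han, hu]
  have h2 : τ (AA α g u + c • n) w' = τ (AA α g u) w' := by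
    rw [map_add, map_smul, LinearMap.add_apply, LinearMap.smul_apply, hn]
    simp
  have h3 : τ (AA α g u') (AA α g u + c • n) = τ (AA α g u') (AA α g u) := by
    rw [map_add, map_smul, smul_eq_mul, hskew _ n, hn]
    simp
  have h4 : ν (AA α g u + c • n) = ν (AA α g u) + c := by
    rw [map_add, map_smul, hν]
    simp
  rw [h2, h3, h4]
  have h5 := hskew (AA α g u') (AA α g u)
  have h6 := hrr u'
  rw [red_apply] at h6
  have h7 : c + ν (AA α g u) = red σ τ α g u u₁ := by simp [c]
  have h8 : ν (AA α g u) + c = red σ τ α g u u₁ := by rw [add_comm]; exact h7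
  rw [h8, h5]
  linarith

end point

end Pool.Agent.TH327.PT
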