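import Pool.Agent.TH809.SY.Prod
import Pool.Agent.TH327.PT.Lin

/-!
Closed 1-forms on smooth manifolds, in charts; sums, wedge products and pull-backs.
-/

set_option autoImplicit false
set_option linter.unusedSectionVars false

open scoped Manifold ContDiff
open Set Function Pool.Agent.TH809.SY

namespace Pool.Agent.TH327.PT

section Defs

variable {E H M : Type*} [NormedAddCommGroup E] [NormedSpace ℝ E] [TopologicalSpace H]
  (I : ModelWithCorners ℝ E H) [TopologicalSpace M] [ChartedSpace H M]

/-- The coordinate expression of a field of linear forms `α` on the tangent spaces of `M` in the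
chart at `p₀`. -/
noncomputable def coord1 (α : M → Module.Dual ℝ E) (p₀ : M) (y u : E) : ℝ :=
  α ((extChartAt I p₀).symm y) (dch I p₀ y u)

/-- `α` is a smooth closed 1-form. -/
structure IsClosed1 (α : M → Module.Dual ℝ E) : Prop where
  smooth : ∀ (p₀ : M) (u : E), ContDiffOn ℝ ∞ (fun y => coord1 I α p₀ y u) (extChartAt I p₀).target
  closed : ∀ (p₀ : M), ∀ y ∈ (extChartAt I p₀).target, ∀ u v : E,
    fderiv ℝ (fun z => coord1 I α p₀ z v) y u = fderiv ℝ (fun z => coord1 I α p₀ z u) y v

end Defs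

section ops

variable {E H X : Type*} [NormedAddCommGroup E] [NormedSpace ℝ E] [TopologicalSpace H]
  {I : ModelWithCorners ℝ E H} [TopologicalSpace X] [ChartedSpace H X] [I.Boundaryless]

theorem diff1 {α : X → Module.Dual ℝ E} (h : IsClosed1 I α) (p₀ : X) {y : E}
    (hy : y ∈ (extChartAt I p₀).target) (u : E) :
    DifferentiableAt ℝ (fun y => coord1 I α p₀ y u) y :=
  ((h.smooth p₀ u).differentiableOn (by simp)).differentiableAt
    ((isOpen_extChartAt_target p₀).mem_nhds hy)

/-- linear combinations of closed 1-forms are closed -/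
theorem sum_closed1 {k : ℕ} {α : X → Fin k → Module.Dual ℝ E}
    (h : ∀ i, IsClosed1 I fun x => α x i) (c : Fin k → ℝ) :
    IsClosed1 I fun x => ∑ i, c i • α x i := by
  have key : ∀ (p₀ : X) (y u : E), coord1 I (fun x => ∑ i, c i • α x i) p₀ y u =
      ∑ i, c i * coord1 I (fun x => α x i) p₀ y u := by
    intro p₀ y u
    simp [coord1, LinearMap.sum_apply]
  constructor
  · intro p₀ u
    simp only [key]
    exact ContDiffOn.sum fun i _ => contDiffOn_const.mul ((h i).smooth p₀ u)
  · intro p₀ y hy u v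
    simp only [key]
    have h1 : ∀ v : E, HasFDerivAt (fun z => ∑ i, c i * coord1 I (fun x => α x i) p₀ z v)
        (∑ i, c i • fderiv ℝ (fun z => coord1 I (fun x => α x i) p₀ z v) y) y := fun v =>
      HasFDerivAt.fun_sum fun i _ => ((diff1 (h i) p₀ hy v).hasFDerivAt).const_mul (c i)
    rw [(h1 v).fderiv, (h1 u).fderiv]
    simp only [ContinuousLinearMap.sum_apply, ContinuousLinearMap.smul_apply]
    exact Finset.sum_congr rfl fun i _ => by rw [(h i).closed p₀ y hy u v]

/-- `∑ κ (g i) (g j) α i ⊗ α j` is a closed 2-form for alternating `κ` -/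
theorem wedge_closed {k : ℕ} {G : Type*} [AddCommGroup G] [Module ℝ G]
    {α : X → Fin k → Module.Dual ℝ E} (h : ∀ i, IsClosed1 I fun x => α x i)
    (κ : LinearMap.BilinForm ℝ G) (hκ : ∀ w, κ w w = 0) (g : Fin k → G) :
    IsClosedForm I fun x => κ.compl₁₂ (AA (α x) g) (AA (α x) g) := by
  have hskew : ∀ v w, κ v w = - κ w v := by
    intro v w
    have := hκ (v + w)
    simp only [map_add, LinearMap.add_apply, hκ] at this
    linarith
  have key : ∀ (p₀ : X) (y u v : E),
      coord I (fun x => κ.compl₁₂ (AA (α x) g) (AA (α x) g)) p₀ y u v =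
      ∑ i, ∑ j, κ (g i) (g j) * (coord1 I (fun x => α x i) p₀ y u *
        coord1 I (fun x => α x j) p₀ y v) := by
    intro p₀ y u v
    simp only [coord, LinearMap.compl₁₂_apply, AA_apply, map_sum, LinearMap.sum_apply, map_smul,
      LinearMap.smul_apply, smul_eq_mul, coord1]
    rw [Finset.sum_comm]
    refine Finset.sum_congr rfl fun i _ => ?_
    rw [Finset.mul_sum]
    exact Finset.sum_congr rfl fun j _ => by ring
  refine ⟨fun x u => hκ _, fun p₀ u v => ?_, fun p₀ y hy u v w => ?_⟩
  · simp only [key]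
    exact ContDiffOn.sum fun i _ => ContDiffOn.sum fun j _ =>
      contDiffOn_const.mul (((h i).smooth p₀ u).mul ((h j).smooth p₀ v))
  · simp only [key]
    have h1 : ∀ u v : E, HasFDerivAt (fun z => ∑ i, ∑ j, κ (g i) (g j) *
        (coord1 I (fun x => α x i) p₀ z u * coord1 I (fun x => α x j) p₀ z v))
        (∑ i, ∑ j, κ (g i) (g j) • (coord1 I (fun x => α x i) p₀ y u •
          fderiv ℝ (fun z => coord1 I (fun x => α x j) p₀ z v) y +
          coord1 I (fun x => α x j) p₀ y v •
          fderiv ℝ (fun z => coord1 I (fun x => α x i) p₀ z u) y)) y := fun u v =>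
      HasFDerivAt.fun_sum fun i _ => HasFDerivAt.fun_sum fun j _ =>
        (((diff1 (h i) p₀ hy u).hasFDerivAt).mul ((diff1 (h j) p₀ hy v).hasFDerivAt)).const_mul _
    rw [(h1 v w).fderiv, (h1 u w).fderiv, (h1 u v).fderiv]
    simp only [ContinuousLinearMap.sum_apply, ContinuousLinearMap.smul_apply,
      ContinuousLinearMap.add_apply, smul_eq_mul]
    have hc : ∀ i (u v : E), fderiv ℝ (fun z => coord1 I (fun x => α x i) p₀ z v) y u =
        fderiv ℝ (fun z => coord1 I (fun x => α x i) p₀ z u) y v := fun i u v =>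
      (h i).closed p₀ y hy u v
    -- abbreviations
    set a : Fin k → E → ℝ := fun i u => coord1 I (fun x => α x i) p₀ y u with ha
    set D : Fin k → E → E → ℝ := fun i u v =>
      fderiv ℝ (fun z => coord1 I (fun x => α x i) p₀ z u) y v with hD
    have hD' : ∀ i u v, D i v u = D i u v := fun i u v => hc i u v
    show (∑ i, ∑ j, κ (g i) (g j) * (a i v * D j w u + a j w * D i v u)) -
      (∑ i, ∑ j, κ (g i) (g j) * (a i u * D j w v + a j w * D i u v)) +
      (∑ i, ∑ j, κ (g i) (g j) * (a i u * D j v w + a j v * D i u w)) = 0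
    rw [← Finset.sum_sub_distrib, ← Finset.sum_add_distrib]
    have h2 : ∀ i, (∑ j, κ (g i) (g j) * (a i v * D j w u + a j w * D i v u)) -
        (∑ j, κ (g i) (g j) * (a i u * D j w v + a j w * D i u v)) +
        (∑ j, κ (g i) (g j) * (a i u * D j v w + a j v * D i u w)) =
        (∑ j, κ (g i) (g j) * (a i v * D j u w)) + ∑ j, κ (g i) (g j) * (a j v * D i u w) := by
      intro i
      rw [← Finset.sum_sub_distrib, ← Finset.sum_add_distrib, ← Finset.sum_add_distrib]
      refine Finset.sum_congr rfl fun j _ => ?_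
      rw [hD' j u w, hD' i u v, hD' j v w]
      ring
    rw [Finset.sum_congr rfl fun i _ => h2 i, Finset.sum_add_distrib]
    have h3 : ∑ i, ∑ j, κ (g i) (g j) * (a j v * D i u w) =
        - ∑ i, ∑ j, κ (g i) (g j) * (a i v * D j u w) := by
      rw [Finset.sum_comm, ← Finset.sum_neg_distrib]
      refine Finset.sum_congr rfl fun i _ => ?_
      rw [← Finset.sum_neg_distrib]
      refine Finset.sum_congr rfl fun j _ => ?_
      rw [hskew (g j) (g i)]
      ring
    rw [h3]
    ring

end ops

section pull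

variable {E H X E' H' M : Type*} [NormedAddCommGroup E] [NormedSpace ℝ E] [TopologicalSpace H]
  {I : ModelWithCorners ℝ E H} [TopologicalSpace X] [ChartedSpace H X] [I.Boundaryless]
  [NormedAddCommGroup E'] [NormedSpace ℝ E'] [TopologicalSpace H']
  {I' : ModelWithCorners ℝ E' H'} [TopologicalSpace M] [ChartedSpace H' M] [I'.Boundaryless]

theorem pull1_closed {L : E →L[ℝ] E'} {i : X → M} (h : Chartwise I I' L i)
    {α : M → Module.Dual ℝ E'} (hα : IsClosed1 I' α) :
    IsClosed1 I fun x => (α (i x)).comp (L : E →ₗ[ℝ] E') := by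
  have key : ∀ x₀ : X, ∃ (p₀ : M) (c : E'), ∀ y ∈ (extChartAt I x₀).target,
      L y + c ∈ (extChartAt I' p₀).target ∧ ∀ u : E,
      coord1 I (fun x => (α (i x)).comp (L : E →ₗ[ℝ] E')) x₀ y u =
        coord1 I' α p₀ (L y + c) (L u) := by
    intro x₀
    obtain ⟨p₀, c, hc⟩ := h x₀
    refine ⟨p₀, c, fun y hy => ⟨(hc y hy).1, fun u => ?_⟩⟩
    obtain ⟨_, h2, h3⟩ := hc y hy
    unfold coord1
    rw [h2, h3 u]
    rfl
  refine ⟨fun x₀ u => ?_, fun x₀ y hy u v => ?_⟩
  · obtain ⟨p₀, c, hc⟩ := key x₀
    have h1 : ContDiffOn ℝ ∞ (fun y : E => coord1 I' α p₀ (L y + c) (L u))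
        (extChartAt I x₀).target :=
      (hα.smooth p₀ (L u)).comp (L.contDiff.add contDiff_const).contDiffOn
        fun y hy => (hc y hy).1
    exact h1.congr fun y hy => (hc y hy).2 u
  · obtain ⟨p₀, c, hc⟩ := key x₀
    have hopen : IsOpen (extChartAt I x₀).target := isOpen_extChartAt_target x₀
    have hf : ∀ a d : E, fderiv ℝ (fun z => coord1 I (fun x => (α (i x)).comp (L : E →ₗ[ℝ] E'))
        x₀ z a) y d = fderiv ℝ (fun z => coord1 I' α p₀ z (L a)) (L y + c) (L d) := by
      intro a d
      have e1 : (fun z => coord1 I (fun x => (α (i x)).comp (L : E →ₗ[ℝ] E')) x₀ z a) =ᶠ[nhds y]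
          (fun z => coord1 I' α p₀ z (L a)) ∘ fun z => L z + c := by
        filter_upwards [hopen.mem_nhds hy] with z hz
        exact (hc z hz).2 a
      have hd : DifferentiableAt ℝ (fun z => coord1 I' α p₀ z (L a)) (L y + c) :=
        diff1 hα p₀ (hc y hy).1 (L a)
      have hL : HasFDerivAt (fun z : E => L z + c) L y := L.hasFDerivAt.add_const c
      rw [e1.fderiv_eq, (hd.hasFDerivAt.comp y hL).fderiv]
      rfl
    rw [hf, hf]
    exact hα.closed p₀ (L y + c) (hc y hy).1 (L u) (L v)

end pull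

end Pool.Agent.TH327.PT
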