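import Pool.Agent.TH327.PT.Forms

/-!
Symplectic forms of product type on `X × Y`: reduction to `X` along a slice `X × {y₀}`.
-/

set_option autoImplicit false
set_option linter.unusedSectionVars false

open scoped Manifold ContDiff Topology
open Set Function Filter Pool.Agent.TH809.SY

namespace Pool.Agent.TH327.PT

section chart

variable {E H X : Type*} [NormedAddCommGroup E] [NormedSpace ℝ E] [TopologicalSpace H]
  {I : ModelWithCorners ℝ E H} [TopologicalSpace X] [ChartedSpace H X] [I.Boundaryless]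
  [IsManifold I ∞ X]

theorem dch_bij (x₀ : X) {y : E} (hy : y ∈ (extChartAt I x₀).target) : Bijective (dch I x₀ y) := by
  have : IsManifold I 1 X := IsManifold.of_le (n := ∞) (by norm_num)
  have h := isInvertible_mfderivWithin_extChartAt_symm (I := I) (x := x₀) hy
  rw [I.range_eq_univ, mfderivWithin_univ] at h
  obtain ⟨e, he⟩ := h
  have h2 : (dch I x₀ y : E → E) = e := by
    unfold dch
    rw [← he]
    rfl
  rw [h2]
  exact e.bijective

variable [FiniteDimensional ℝ E] {F : Type*} [NormedAddCommGroup F] [NormedSpace ℝ F]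
  [FiniteDimensional ℝ F] {k : ℕ}

/-- nondegeneracy of the form at `x` -/
def NDat (σ : LinearMap.BilinForm ℝ E) (τ : LinearMap.BilinForm ℝ F)
    (α : Fin k → Module.Dual ℝ E) (β : Fin k → Module.Dual ℝ F) : Prop :=
  ∀ u w, (∀ u' w', om σ τ α β u w u' w' = 0) → u = 0 ∧ w = 0

/-- the form as a bilinear form on `E × F` -/
def omB (σ : LinearMap.BilinForm ℝ E) (τ : LinearMap.BilinForm ℝ F)
    (α : Fin k → Module.Dual ℝ E) (β : Fin k → Module.Dual ℝ F) :
    LinearMap.BilinForm ℝ (E × F) :=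
  LinearMap.mk₂ ℝ (fun p q => om σ τ α β p.1 p.2 q.1 q.2)
    (fun a b c => by
      simp only [om_eq, Prod.fst_add, Prod.snd_add, map_add, LinearMap.add_apply, add_mul, mul_add,
        Finset.sum_add_distrib]
      ring)
    (fun a b c => by
      simp only [om_eq, Prod.smul_fst, Prod.smul_snd, map_smul, LinearMap.smul_apply, smul_eq_mul]
      have h1 : ∑ i, a * (α i) b.1 * (β i) c.2 = a * ∑ i, (α i) b.1 * (β i) c.2 := by
        rw [Finset.mul_sum]; exact Finset.sum_congr rfl fun _ _ => by ring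
      have h2 : ∑ i, (α i) c.1 * (a * (β i) b.2) = a * ∑ i, (α i) c.1 * (β i) b.2 := by
        rw [Finset.mul_sum]; exact Finset.sum_congr rfl fun _ _ => by ring
      rw [h1, h2]
      ring)
    (fun a b c => by
      simp only [om_eq, Prod.fst_add, Prod.snd_add, map_add, LinearMap.add_apply, add_mul, mul_add,
        Finset.sum_add_distrib]
      ring)
    (fun a b c => by
      simp only [om_eq, Prod.smul_fst, Prod.smul_snd, map_smul, LinearMap.smul_apply, smul_eq_mul]
      have h1 : ∑ i, (α i) b.1 * (a * (β i) c.2) = a * ∑ i, (α i) b.1 * (β i) c.2 := by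
        rw [Finset.mul_sum]; exact Finset.sum_congr rfl fun _ _ => by ring
      have h2 : ∑ i, a * (α i) c.1 * (β i) b.2 = a * ∑ i, (α i) c.1 * (β i) b.2 := by
        rw [Finset.mul_sum]; exact Finset.sum_congr rfl fun _ _ => by ring
      rw [h1, h2]
      ring)

theorem omB_apply (σ : LinearMap.BilinForm ℝ E) (τ : LinearMap.BilinForm ℝ F)
    (α : Fin k → Module.Dual ℝ E) (β : Fin k → Module.Dual ℝ F) (p q : E × F) :
    omB σ τ α β p q = om σ τ α β p.1 p.2 q.1 q.2 := rfl

theorem NDat_iff (σ : LinearMap.BilinForm ℝ E) (τ : LinearMap.BilinForm ℝ F)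
    (α : Fin k → Module.Dual ℝ E) (β : Fin k → Module.Dual ℝ F) :
    NDat σ τ α β ↔ ∀ v, (∀ v', omB σ τ α β v v' = 0) → v = 0 := by
  constructor
  · rintro h ⟨u, w⟩ hv
    have := h u w fun u' w' => hv (u', w')
    exact Prod.ext this.1 this.2
  · intro h u w hv
    have := h (u, w) fun v' => hv v'.1 v'.2
    exact ⟨congrArg Prod.fst this, congrArg Prod.snd this⟩

/-- nondegeneracy in the chart -/
theorem NDat_chart (σ : LinearMap.BilinForm ℝ E) (τ : LinearMap.BilinForm ℝ F)
    (α : Fin k → Module.Dual ℝ E) (β : Fin k → Module.Dual ℝ F) {T : E →L[ℝ] E} (hT : Bijective T) :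
    NDat σ τ α β ↔ ∀ v : E × F,
      (∀ v', (omB σ τ α β).compl₁₂ ((T : E →ₗ[ℝ] E).prodMap LinearMap.id)
        ((T : E →ₗ[ℝ] E).prodMap LinearMap.id) v v' = 0) → v = 0 := by
  rw [NDat_iff]
  constructor
  · rintro h ⟨u, w⟩ hv
    have h1 : ((T u, w) : E × F) = 0 := by
      apply h
      rintro ⟨u', w'⟩
      obtain ⟨u'', rfl⟩ := hT.2 u'
      exact hv (u'', w')
    have h2 : T u = 0 := congrArg Prod.fst h1
    have h3 : w = 0 := congrArg Prod.snd h1
    have h4 : u = 0 := hT.1 (by rw [h2, map_zero])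
    rw [h3, h4]
    rfl
  · rintro h ⟨u, w⟩ hv
    obtain ⟨u₁, rfl⟩ := hT.2 u
    have h1 : ((u₁, w) : E × F) = 0 := by
      apply h
      rintro ⟨u', w'⟩
      exact hv (T u', w')
    have h2 : u₁ = 0 := congrArg Prod.fst h1
    have h3 : w = 0 := congrArg Prod.snd h1
    rw [h3, h2, map_zero]
    rfl

/-- stability of nondegeneracy under small changes of the constant part, uniformly on a compact
manifold -/
theorem ev_ND [CompactSpace X] {σ : X → LinearMap.BilinForm ℝ E}
    {α : X → Fin k → Module.Dual ℝ E} (hσ : IsClosedForm I σ) (hα : ∀ i, IsClosed1 I fun x => α x i)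
    (τ K : LinearMap.BilinForm ℝ F) (β : Fin k → Module.Dual ℝ F)
    (h0 : ∀ x, NDat (σ x) τ (α x) β) :
    ∀ᶠ ε in 𝓝 (0 : ℝ), ∀ x, NDat (σ x) (τ + ε • K) (α x) β := by
  have h1 := isCompact_univ.eventually_forall_of_forall_eventually (x₀ := (0 : ℝ))
    (K := (univ : Set X)) (P := fun ε x => NDat (σ x) (τ + ε • K) (α x) β) ?_
  · filter_upwards [h1] with ε hε x
    exact hε x (mem_univ x)
  intro x₀ _
  let φ := extChartAt I x₀
  let b := Module.finBasis ℝ (E × F)
  -- the Gram matrix in the chart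
  let G : ℝ × X → Matrix (Fin (Module.finrank ℝ (E × F))) (Fin (Module.finrank ℝ (E × F))) ℝ :=
    fun p => Matrix.of fun i j =>
      (omB (σ (φ.symm (φ p.2))) (τ + p.1 • K) (α (φ.symm (φ p.2))) β).compl₁₂
        ((dch I x₀ (φ p.2) : E →ₗ[ℝ] E).prodMap LinearMap.id)
        ((dch I x₀ (φ p.2) : E →ₗ[ℝ] E).prodMap LinearMap.id) (b i) (b j)
  have hG : ∀ p i j, G p i j = coord I σ x₀ (φ p.2) (b i).1 (b j).1 +
      (τ (b i).2 (b j).2 + p.1 * K (b i).2 (b j).2) +
      (∑ l, coord1 I (fun x => α x l) x₀ (φ p.2) (b i).1 * β l (b j).2) -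
      ∑ l, coord1 I (fun x => α x l) x₀ (φ p.2) (b j).1 * β l (b i).2 := by
    intro p i j
    simp only [G, Matrix.of_apply, LinearMap.compl₁₂_apply, omB_apply, om_eq]
    rfl
  have hφ : ContinuousAt φ x₀ := continuousAt_extChartAt x₀
  have hφ2 : ContinuousAt (fun p : ℝ × X => φ p.2) (0, x₀) :=
    ContinuousAt.comp (f := (Prod.snd : ℝ × X → X)) (g := φ) hφ continuousAt_snd
  have hmem : φ x₀ ∈ φ.target := mem_extChartAt_target x₀
  have hopen : IsOpen φ.target := isOpen_extChartAt_target x₀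
  have hcs : ∀ u v, ContinuousAt (fun p : ℝ × X => coord I σ x₀ (φ p.2) u v) (0, x₀) := by
    intro u v
    have h2 : ContinuousAt (fun y => coord I σ x₀ y u v) (φ x₀) :=
      ((hσ.smooth x₀ u v).continuousOn).continuousAt (hopen.mem_nhds hmem)
    exact ContinuousAt.comp (f := fun p : ℝ × X => φ p.2) (g := fun y => coord I σ x₀ y u v) h2 hφ2
  have hca : ∀ l u, ContinuousAt (fun p : ℝ × X => coord1 I (fun x => α x l) x₀ (φ p.2) u)
      (0, x₀) := by
    intro l u
    have h2 : ContinuousAt (fun y => coord1 I (fun x => α x l) x₀ y u) (φ x₀) :=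
      (((hα l).smooth x₀ u).continuousOn).continuousAt (hopen.mem_nhds hmem)
    exact ContinuousAt.comp (f := fun p : ℝ × X => φ p.2)
      (g := fun y => coord1 I (fun x => α x l) x₀ y u) h2 hφ2
  have hGc : ContinuousAt G (0, x₀) := by
    refine continuousAt_pi.2 fun i => continuousAt_pi.2 fun j => ?_
    simp only [hG]
    have hs : ∀ (u : E) (w : F), ContinuousAt (fun p : ℝ × X =>
        ∑ l, coord1 I (fun x => α x l) x₀ (φ p.2) u * β l w) (0, x₀) := fun u w =>
      tendsto_finsetSum _ fun l _ => (hca l u).mul continuousAt_const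
    exact (((hcs _ _).add (continuousAt_const.add (continuousAt_fst.mul continuousAt_const))).add
      (hs _ _)).sub (hs _ _)
  have hdet : ContinuousAt (fun p => (G p).det) (0, x₀) :=
    ContinuousAt.comp (f := G) (g := Matrix.det)
      (continuous_id.matrix_det.continuousAt) hGc
  have hs : φ.symm (φ x₀) = x₀ := φ.left_inv (mem_extChartAt_source x₀)
  have hG0 : (G (0, x₀)).det ≠ 0 := by
    have h2 := (NDat_chart (σ x₀) τ (α x₀) β (dch_bij x₀ hmem)).1 (h0 x₀)
    have h3 := (det_ne_zero_iff b _).2 h2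
    have h4 : G (0, x₀) = Matrix.of fun i j => (omB (σ x₀) τ (α x₀) β).compl₁₂
        ((dch I x₀ (φ x₀) : E →ₗ[ℝ] E).prodMap LinearMap.id)
        ((dch I x₀ (φ x₀) : E →ₗ[ℝ] E).prodMap LinearMap.id) (b i) (b j) := by
      simp only [G, hs, zero_smul, add_zero]
    rw [h4]
    exact h3
  have hev : ∀ᶠ p in 𝓝 ((0 : ℝ), x₀), (G p).det ≠ 0 := hdet.eventually_ne hG0
  have hsrc : ∀ᶠ p : ℝ × X in 𝓝 (0, x₀), p.2 ∈ φ.source :=
    continuousAt_snd.eventually (extChartAt_source_mem_nhds x₀)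
  filter_upwards [hev, hsrc] with p hp hps
  have hp2 : φ.symm (φ p.2) = p.2 := φ.left_inv hps
  have h2 := (det_ne_zero_iff b _).1 hp
  rw [hp2] at h2
  exact (NDat_chart (σ p.2) (τ + p.1 • K) (α p.2) β (dch_bij x₀ (φ.map_source hps))).2 h2

variable (I) in
/-- a cosymplectic pair: a closed 1-form without zeros and a closed 2-form which is nondegenerate
on its kernel -/
def Cosymplectic (α : X → Module.Dual ℝ E) (β : X → LinearMap.BilinForm ℝ E) : Prop :=
  IsClosed1 I α ∧ IsClosedForm I β ∧ (∀ x, α x ≠ 0) ∧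
    ∀ x u, α x u = 0 → (∀ v, α x v = 0 → β x u v = 0) → u = 0

/-- the reduction along a slice -/
theorem slice [CompactSpace X] {σ : X → LinearMap.BilinForm ℝ E}
    {α : X → Fin k → Module.Dual ℝ E} (hσ : IsClosedForm I σ) (hα : ∀ i, IsClosed1 I fun x => α x i)
    (τ : LinearMap.BilinForm ℝ F) (hτ : ∀ w, τ w w = 0) (β : Fin k → Module.Dual ℝ F)
    (h0 : ∀ x, NDat (σ x) τ (α x) β) :
    (∃ Ω, IsSymplectic I (M := X) Ω) ∨ ∃ a b, Cosymplectic I (X := X) a b := by
  obtain ⟨K, n, ν, hK, hν, hrad⟩ := exists_K τ hτ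
  have hev := ev_ND hσ hα τ K β h0
  obtain ⟨ε, hε, hε0⟩ : ∃ ε : ℝ, (∀ x, NDat (σ x) (τ + ε • K) (α x) β) ∧ ε ≠ 0 := by
    have h1 : ∀ᶠ ε in 𝓝[≠] (0 : ℝ), (∀ x, NDat (σ x) (τ + ε • K) (α x) β) ∧ ε ≠ 0 :=
      (hev.filter_mono nhdsWithin_le_nhds).and self_mem_nhdsWithin
    exact h1.exists
  set τ' := τ + ε • K with hτ'
  have hτ'a : ∀ w, τ' w w = 0 := by
    intro w
    show τ w w + ε * K w w = 0
    rw [hτ, hK]
    ring
  obtain ⟨hn, hr⟩ := hrad ε hε0
  choose g hg using fun i => exists_g τ' hτ'a hν hn hr (-β i)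
  have hg' : ∀ i w, τ' (g i) w = - β i w + β i n * ν w := by
    intro i w
    rw [hg]
    simp
  have hred : IsClosedForm I fun x => red (σ x) τ' (α x) g := by
    have h1 := wedge_closed hα (-τ') (fun w => by
      show - τ' w w = 0
      rw [hτ'a, neg_zero]) g
    have h2 := add_closed hσ h1
    have h3 : (fun x => red (σ x) τ' (α x) g) =
        fun x => σ x + (-τ').compl₁₂ (AA (α x) g) (AA (α x) g) := by
      funext x
      ext u u'
      show σ x u u' - τ' (AA (α x) g u) (AA (α x) g u') =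
        σ x u u' + - τ' (AA (α x) g u) (AA (α x) g u')
      ring
    rw [h3]
    exact h2
  rcases hν with hν | ⟨-, hν⟩
  · right
    refine ⟨fun x => ∑ i, β i n • α x i, fun x => red (σ x) τ' (α x) g,
      sum_closed1 hα fun i => β i n, hred, fun x => ?_, fun x u hu hv => ?_⟩
    · obtain ⟨⟨u, hu⟩, -⟩ := point_odd hτ'a hn hν hg' (hε x)
      intro h
      apply hu
      have := LinearMap.congr_fun h u
      simpa [LinearMap.sum_apply] using this
    · have e1 : ∀ v, (∑ i, β i n • α x i) v = ∑ i, β i n * α x i v := by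
        intro v
        simp [LinearMap.sum_apply]
      simp only [e1] at hu hv
      exact (point_odd hτ'a hn hν hg' (hε x)).2 u hu hv
  · left
    exact ⟨fun x => red (σ x) τ' (α x) g, hred, fun x u hu =>
      point_even hτ'a hν hg' (hε x) u hu⟩

end chart

end Pool.Agent.TH327.PT
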